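import Pool.Agent.WT563.Core
import Pool.Prelude.Def_F_ab5c0e36

set_option autoImplicit false

namespace Pool.Agent.WT563

open MeasureTheory Set ENNReal Na99134c6

/-- the union of the sixty unit intervals -/
def Om : Set ℝ := ⋃ a ∈ A, Ioo (a : ℝ) (a + 1)

theorem mem_Om {x : ℝ} : x ∈ Om ↔ ∃ a ∈ A, (a : ℝ) < x ∧ x < a + 1 := by
  unfold Om
  simp only [mem_iUnion, mem_Ioo, exists_prop]

theorem Om_meas : MeasurableSet Om :=
  Finset.measurableSet_biUnion _ (fun _ _ => measurableSet_Ioo)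

theorem Om_bdd : Bornology.IsBounded Om := by
  apply (Metric.isBounded_Ioo (0 : ℝ) 5892).subset
  intro x hx
  obtain ⟨a, ha, h1, h2⟩ := mem_Om.1 hx
  have h3 : (a : ℝ) ≤ 5891 := by exact_mod_cast A_le a ha
  have h4 : (0 : ℝ) ≤ a := Nat.cast_nonneg a
  exact ⟨by linarith, by linarith⟩

theorem L_len : L.length = 60 := by decide +kernel

theorem L_sorted : ∀ i j : Fin 60, i < j → L.getD i 0 + 1 < L.getD j 0 := by decide +kernel

theorem Om_union : IsUnionOfNIntervals 60 Om := by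
  refine ⟨fun i => (L.getD i 0 : ℝ), fun i => (L.getD i 0 : ℝ) + 1, fun i => by simp, ?_, ?_⟩
  · intro i j hij
    have := L_sorted i j hij
    have h : ((L.getD i 0 + 1 : ℕ) : ℝ) < (L.getD j 0 : ℝ) := by exact_mod_cast this
    simpa using h
  · ext x
    rw [mem_Om, mem_iUnion]
    constructor
    · rintro ⟨a, ha, h1, h2⟩
      have ha' : a ∈ L := by simpa [A] using ha
      obtain ⟨i, hi, rfl⟩ := List.getElem_of_mem ha'
      refine ⟨⟨i, by rw [← L_len]; exact hi⟩, ?_⟩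
      have : L.getD i 0 = L[i] := by simp [List.getD, hi]
      simp only [this]
      exact ⟨h1, h2⟩
    · rintro ⟨i, h1, h2⟩
      refine ⟨L.getD i 0, ?_, h1, h2⟩
      have hi : (i : ℕ) < L.length := by rw [L_len]; exact i.2
      have : L.getD i 0 = L[(i : ℕ)] := by simp [List.getD, hi]
      rw [this]
      simp [A]

/-- splitting the convolution -/
theorem meas_split (μ : Measure ℝ) (x : ℝ) :
    μ {t | x - t ∈ Om} = ∑ a ∈ A, μ (Ioo (x - a - 1) (x - a)) := by
  have h1 : {t : ℝ | x - t ∈ Om} = ⋃ a ∈ A, Ioo (x - a - 1) (x - a) := by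
    ext t
    simp only [mem_ofPred_eq, mem_Om, mem_iUnion, mem_Ioo, exists_prop]
    constructor
    · rintro ⟨a, ha, h2, h3⟩
      exact ⟨a, ha, by linarith, by linarith⟩
    · rintro ⟨a, ha, h2, h3⟩
      exact ⟨a, ha, by linarith, by linarith⟩
  rw [h1]
  apply measure_biUnion_finset
  · intro a _ b _ hab
    rw [Function.onFun, Set.disjoint_left]
    rintro t ⟨h2, h3⟩ ⟨h4, h5⟩
    rcases lt_or_gt_of_ne hab with h | h
    · have : (a : ℝ) + 1 ≤ b := by exact_mod_cast h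
      linarith
    · have : (b : ℝ) + 1 ≤ a := by exact_mod_cast h
      linarith
  · intro _ _
    exact measurableSet_Ioo

theorem meas_set (x : ℝ) : MeasurableSet {t | x - t ∈ Om} :=
  (measurable_const.sub measurable_id) Om_meas

theorem integral_split (μ : Measure ℝ) (x : ℝ) :
    ∫ t, Om.indicator (fun _ => (1 : ℝ)) (x - t) ∂μ
      = (∑ a ∈ A, μ (Ioo (x - a - 1) (x - a))).toReal := by
  rw [← meas_split]
  have h : ∀ t, Om.indicator (fun _ => (1 : ℝ)) (x - t)
      = {t | x - t ∈ Om}.indicator (fun _ => (1 : ℝ)) t := by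
    intro t
    by_cases ht : x - t ∈ Om
    · rw [indicator_of_mem ht, indicator_of_mem (by exact ht)]
    · rw [indicator_of_notMem ht, indicator_of_notMem (by exact ht)]
  simp only [h]
  rw [integral_indicator_const _ (meas_set x)]
  simp [Measure.real]

/-! ### the weak tiling measure -/

/-- the masses -/
noncomputable def c (m : ℤ) : ℝ≥0∞ := ((if m = 0 then 0 else W m : ℕ) : ℝ≥0∞) / 240

/-- the weak tiling measure -/
noncomputable def nu : Measure ℝ := Measure.sum (fun m : ℤ => c m • Measure.dirac (m : ℝ))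

theorem c_lt (m : ℤ) : c m < ∞ := by
  unfold c
  exact ENNReal.div_lt_top (ENNReal.natCast_ne_top _) (by norm_num)

theorem nu_apply {s : Set ℝ} (hs : MeasurableSet s) :
    nu s = ∑' m : ℤ, c m * s.indicator 1 (m : ℝ) := by
  unfold nu
  rw [Measure.sum_apply _ hs]
  congr 1
  ext m
  rw [Measure.smul_apply, Measure.dirac_apply' _ hs, smul_eq_mul]

theorem nu_Ioo {y : ℝ} (hy : ((⌊y⌋ : ℤ) : ℝ) ≠ y) : nu (Ioo (y - 1) y) = c ⌊y⌋ := by
  have h1 : ((⌊y⌋ : ℤ) : ℝ) < y := lt_of_le_of_ne (Int.floor_le y) hy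
  have h2 : y < ⌊y⌋ + 1 := Int.lt_floor_add_one y
  rw [nu_apply measurableSet_Ioo, tsum_eq_single ⌊y⌋]
  · rw [indicator_of_mem]
    · simp
    · exact ⟨by linarith, h1⟩
  · intro m hm
    rw [indicator_of_notMem, mul_zero]
    rintro ⟨h3, h4⟩
    apply hm
    have h5 : m ≤ ⌊y⌋ := Int.le_floor.2 h4.le
    have h6 : (⌊y⌋ : ℝ) - 1 < m := by linarith
    have h7 : ⌊y⌋ - 1 < m := by exact_mod_cast h6
    omega

theorem nu_loc : IsLocallyFiniteMeasure nu := by
  refine ⟨fun x => ⟨Ioo (x - 1) (x + 1), Ioo_mem_nhds (by linarith) (by linarith), ?_⟩⟩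
  rw [nu_apply measurableSet_Ioo, tsum_eq_sum (s := Finset.Icc ⌊x - 1⌋ ⌈x + 1⌉)]
  · apply ENNReal.sum_lt_top.2
    intro m _
    refine lt_of_le_of_lt ?_ (c_lt m)
    by_cases h : (m : ℝ) ∈ Ioo (x - 1) (x + 1)
    · rw [indicator_of_mem h]; simp
    · rw [indicator_of_notMem h]; simp
  · intro m hm
    rw [indicator_of_notMem, mul_zero]
    rintro ⟨h1, h2⟩
    apply hm
    rw [Finset.mem_Icc]
    constructor
    · have h3 : (⌊x - 1⌋ : ℝ) < m := lt_of_le_of_lt (Int.floor_le _) h1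
      exact_mod_cast h3.le
    · have h3 : (m : ℝ) < ⌈x + 1⌉ := lt_of_lt_of_le h2 (Int.le_ceil _)
      exact_mod_cast h3.le

theorem c_sum (k : ℤ) : ∑ a ∈ A, c (k - a) = if (∃ a ∈ A, (a : ℤ) = k) then 0 else 1 := by
  have h1 : ∑ a ∈ A, c (k - a)
      = ((∑ a ∈ A, (if k - (a : ℤ) = 0 then 0 else W (k - a)) : ℕ) : ℝ≥0∞) / 240 := by
    unfold c
    rw [Nat.cast_sum, ENNReal.div_eq_inv_mul, Finset.mul_sum]
    apply Finset.sum_congr rfl
    intro a _
    rw [ENNReal.div_eq_inv_mul]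
  rw [h1, W_sum']
  split_ifs with h
  · simp
  · have : ((240 : ℕ) : ℝ≥0∞) = 240 := by norm_num
    rw [this]
    exact ENNReal.div_self (by norm_num) (by norm_num)

theorem mem_Om_iff_floor {x : ℝ} (hx : ((⌊x⌋ : ℤ) : ℝ) ≠ x) :
    x ∈ Om ↔ ∃ a ∈ A, (a : ℤ) = ⌊x⌋ := by
  rw [mem_Om]
  constructor
  · rintro ⟨a, ha, h1, h2⟩
    refine ⟨a, ha, ?_⟩
    symm
    rw [Int.floor_eq_iff]
    exact ⟨by simpa using h1.le, by simpa using h2⟩
  · rintro ⟨a, ha, h1⟩
    have h3 : (a : ℝ) = (⌊x⌋ : ℝ) := by exact_mod_cast h1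
    have h4 : ((⌊x⌋ : ℤ) : ℝ) < x := lt_of_le_of_ne (Int.floor_le x) hx
    have h5 : x < ⌊x⌋ + 1 := Int.lt_floor_add_one x
    exact ⟨a, ha, by rw [h3]; exact h4, by rw [h3]; exact h5⟩

theorem nu_weak : IsWeakTilingMeasure Om nu := by
  refine ⟨Om_bdd, Om_meas, nu_loc, ?_⟩
  have hae : ∀ᵐ x ∂(volume : Measure ℝ), x ∉ range (fun m : ℤ => (m : ℝ)) :=
    (countable_range _).ae_notMem _
  filter_upwards [hae] with x hx
  have hx1 : ((⌊x⌋ : ℤ) : ℝ) ≠ x := fun h => hx ⟨_, h⟩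
  rw [integral_split]
  have h1 : ∀ a ∈ A, nu (Ioo (x - a - 1) (x - a)) = c (⌊x⌋ - a) := by
    intro a _
    have h2 : ⌊x - (a : ℝ)⌋ = ⌊x⌋ - a := Int.floor_sub_natCast x a
    rw [← h2]
    apply nu_Ioo
    rw [h2]
    intro h3
    apply hx1
    push_cast at h3
    linarith
  rw [Finset.sum_congr rfl h1, c_sum]
  by_cases h : x ∈ Om
  · rw [if_pos ((mem_Om_iff_floor hx1).1 h), indicator_of_notMem (by simpa using h)]
    simp
  · rw [if_neg (fun h' => h ((mem_Om_iff_floor hx1).2 h')), indicator_of_mem (by simpa using h)]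
    simp

/-! ### no proper tiling -/

theorem sum_dirac_apply (T : Set ℝ) {s : Set ℝ} (hs : MeasurableSet s)
    (hfin : Measure.sum (fun t : T => Measure.dirac (t : ℝ)) s < ∞) :
    ∃ n : ℕ, Measure.sum (fun t : T => Measure.dirac (t : ℝ)) s = n := by
  rw [Measure.sum_apply _ hs] at hfin ⊢
  have h1 : ∀ t : T, (Measure.dirac (t : ℝ)) s
      = ({t : T | (t : ℝ) ∈ s}).indicator (fun _ => (1 : ℝ≥0∞)) t := by
    intro t
    rw [Measure.dirac_apply' _ hs]
    by_cases h : (t : ℝ) ∈ s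
    · rw [indicator_of_mem h, indicator_of_mem (by exact h)]; rfl
    · rw [indicator_of_notMem h, indicator_of_notMem (by exact h)]
  simp only [h1] at hfin ⊢
  rw [← tsum_subtype, ENNReal.tsum_set_one] at hfin ⊢
  have h2 : ({t : T | (t : ℝ) ∈ s}).encard < ⊤ := by
    by_contra h
    rw [not_lt, top_le_iff] at h
    rw [h] at hfin
    simp at hfin
  obtain ⟨n, hn⟩ := ENat.ne_top_iff_exists.1 h2.ne
  exact ⟨n, by rw [← hn]; simp⟩

theorem no_proper (T : Set ℝ) (hT : IsProperTiling Om T) : False := by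
  obtain ⟨_, _, hloc, hae⟩ := hT
  set μ := Measure.sum (fun t : T => Measure.dirac (t : ℝ)) with hμ
  have hn : ∀ y : ℝ, ∃ n : ℕ, μ (Ioo (y - 1) y) = n := by
    intro y
    apply sum_dirac_apply T measurableSet_Ioo
    exact measure_Ioo_lt_top
  -- a good fractional part
  have h1 : ∀ᵐ x ∂(volume : Measure ℝ), ∀ k : ℤ,
      ∫ t, Om.indicator (fun _ => (1 : ℝ)) ((x + k) - t) ∂μ
        = Omᶜ.indicator (fun _ => (1 : ℝ)) (x + k) := by
    rw [ae_all_iff]
    intro k
    exact (measurePreserving_add_right volume (k : ℝ)).quasiMeasurePreserving.ae hae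
  have h2 : (ae (volume.restrict (Ioo (0 : ℝ) 1))).NeBot := by
    rw [ae_restrict_neBot]
    simp
  have h2' := (ae_restrict_of_ae (s := Ioo (0 : ℝ) 1) h1).and (ae_restrict_mem measurableSet_Ioo)
  obtain ⟨θ, hθ, hθ0, hθ1⟩ := h2'.exists
  choose G hG using fun m : ℤ => hn (θ + m)
  have hfl : ∀ k : ℤ, ⌊θ + k⌋ = k := by
    intro k
    rw [Int.floor_add_intCast, Int.floor_eq_zero_iff.2 ⟨hθ0.le, hθ1⟩, zero_add]
  have hGsum : ∀ k : ℤ, ∑ a ∈ A, G (k - a) = if (∃ a ∈ A, (a : ℤ) = k) then 0 else 1 := by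
    intro k
    have h3 := hθ k
    rw [integral_split] at h3
    have h4 : ∀ a ∈ A, μ (Ioo (θ + k - a - 1) (θ + k - a)) = (G (k - a) : ℝ≥0∞) := by
      intro a _
      rw [← hG (k - a)]
      congr 2
      · push_cast; ring
      · push_cast; ring
    rw [Finset.sum_congr rfl h4, ← Nat.cast_sum, ENNReal.toReal_natCast] at h3
    have h5 : ((⌊θ + k⌋ : ℤ) : ℝ) ≠ θ + k := by
      rw [hfl]
      intro h
      linarith
    have h6 := mem_Om_iff_floor h5
    rw [hfl] at h6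
    by_cases h : θ + k ∈ Om
    · rw [if_pos (h6.1 h)]
      rw [indicator_of_notMem (by simpa using h)] at h3
      exact_mod_cast h3
    · rw [if_neg (fun h' => h (h6.2 h'))]
      rw [indicator_of_mem (by simpa using h)] at h3
      exact_mod_cast h3
  apply no_tiling (fun m => G m + if m = 0 then 1 else 0)
  intro k
  rw [Finset.sum_add_distrib, hGsum k]
  split_ifs with h
  · obtain ⟨a0, ha0, rfl⟩ := h
    rw [Finset.sum_eq_single a0]
    · simp
    · intro b _ hb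
      rw [if_neg]
      intro h0
      exact hb (by omega)
    · intro h0; exact absurd ha0 h0
  · rw [Finset.sum_eq_zero (fun a ha => if_neg (fun h0 => h ⟨a, ha, by omega⟩)), add_zero]

end Pool.Agent.WT563
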