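import Mathlib

set_option autoImplicit false

namespace Pool.Agent.WT563

open Polynomial

/-- the sixty left end points -/
def L : List ℕ := [0, 72, 144, 216, 288, 600, 672, 744, 816, 888, 900, 972, 1044, 1116, 1188, 1200, 1272, 1344, 1416, 1488, 1500, 1572, 1644, 1716, 1788, 2100, 2172, 2244, 2316, 2388, 3601, 3801, 3961, 4001, 4051, 4161, 4251, 4321, 4361, 4411, 4451, 4521, 4611, 4681, 4721, 4771, 4811, 4881, 4971, 5041, 5081, 5131, 5171, 5241, 5331, 5441, 5491, 5531, 5691, 5891]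

/-- the set of left end points -/
def A : Finset ℕ := L.toFinset

theorem L_nodup : L.Nodup := by decide +kernel

theorem sum_A {β : Type*} [AddCommMonoid β] (F : ℕ → β) : ∑ a ∈ A, F a = (L.map F).sum := by
  unfold A
  exact List.sum_toFinset F L_nodup

theorem A_zero : (0 : ℕ) ∈ A := by decide +kernel

theorem A_le : ∀ a ∈ A, a ≤ 5891 := by decide +kernel

theorem A_card : A.card = 60 := by decide +kernel

theorem A_mod3 (r : ℕ) (hr : r < 3) : (A.filter (fun a => a % 3 = r)).card =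
    if r = 0 then 40 else 10 := by
  interval_cases r <;> decide +kernel

/-- `A(ζ) ≠ 0` for the primitive cube roots of unity -/
theorem eval_ne_zero_three {ζ : ℂ} (h3 : ζ ^ 3 = 1) (h1 : ζ ≠ 1) : ∑ a ∈ A, ζ ^ a ≠ 0 := by
  have hsum : 1 + ζ + ζ ^ 2 = 0 := by
    have : (ζ - 1) * (1 + ζ + ζ ^ 2) = 0 := by linear_combination h3
    rcases mul_eq_zero.1 this with h | h
    · exact absurd (sub_eq_zero.1 h) h1
    · exact h
  have e1 : ∑ a ∈ A, ζ ^ a = ∑ r ∈ Finset.range 3, ∑ a ∈ A.filter (fun a => a % 3 = r), ζ ^ a := by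
    rw [Finset.sum_fiberwise_of_maps_to]
    intro a _
    exact Finset.mem_range.2 (Nat.mod_lt _ (by norm_num))
  have e2 : ∀ r ∈ Finset.range 3, ∑ a ∈ A.filter (fun a => a % 3 = r), ζ ^ a
      = ((if r = 0 then 40 else 10 : ℕ) : ℂ) * ζ ^ r := by
    intro r hr
    rw [← A_mod3 r (Finset.mem_range.1 hr), Finset.card_eq_sum_ones, Nat.cast_sum,
      Finset.sum_mul]
    apply Finset.sum_congr rfl
    intro a ha
    have ha' := (Finset.mem_filter.1 ha).2
    rw [← ha', Nat.cast_one, one_mul]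
    conv_lhs => rw [← Nat.div_add_mod a 3, pow_add, pow_mul, h3, one_pow, one_mul]
  rw [e1, Finset.sum_congr rfl e2]
  simp only [Finset.sum_range_succ, Finset.sum_range_zero]
  intro h
  have h30 : (30 : ℂ) = 0 := by
    norm_num at h
    linear_combination h - 10 * hsum
  norm_num at h30

/-- the polynomial of the set -/
noncomputable def PA (R : Type*) [CommRing R] : R[X] := ∑ a ∈ A, X ^ a

theorem PA_map : (PA ℤ).map (Int.castRingHom (ZMod 3)) = PA (ZMod 3) := by
  unfold PA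
  rw [Polynomial.map_sum]
  simp

theorem PA_deriv2 : (derivative (derivative (PA (ZMod 3)))).eval 1 = 2 := by
  unfold PA
  simp only [derivative_sum, derivative_X_pow, eval_finsetSum, derivative_mul,
    eval_mul, zero_mul, zero_add, eval_pow, eval_X, one_pow, mul_one, map_natCast, derivative_natCast, eval_natCast]
  rw [sum_A]
  decide +kernel

theorem eval_ne_zero {ζ : ℂ} {j : ℕ} (hj : 2 ≤ j) (hζ : IsPrimitiveRoot ζ (3 ^ j)) :
    ∑ a ∈ A, ζ ^ a ≠ 0 := by
  intro h0
  have hpos : 0 < 3 ^ j := by positivity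
  have h1 : aeval ζ (PA ℤ) = 0 := by
    unfold PA
    rw [map_sum]
    simpa using h0
  have hint : IsIntegral ℤ ζ := hζ.isIntegral hpos
  have h2 : cyclotomic (3 ^ j) ℤ ∣ PA ℤ := by
    rw [cyclotomic_eq_minpoly hζ hpos]
    exact minpoly.isIntegrallyClosed_dvd hint h1
  have h3 : cyclotomic (3 ^ j) (ZMod 3) ∣ PA (ZMod 3) := by
    rw [← PA_map, ← map_cyclotomic_int (3 ^ j) (ZMod 3)]
    exact Polynomial.map_dvd _ h2
  have h4 : cyclotomic (3 ^ j) (ZMod 3) = (X - 1) ^ (3 ^ j - 3 ^ (j - 1)) := by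
    have : Fact (Nat.Prime 3) := ⟨Nat.prime_three⟩
    have := cyclotomic_mul_prime_pow_eq (ZMod 3) (p := 3) (m := 1) (by norm_num) (k := j) (by omega)
    rwa [mul_one, cyclotomic_one] at this
  have h5 : 3 ≤ 3 ^ j - 3 ^ (j - 1) := by
    obtain ⟨i, rfl⟩ := Nat.exists_eq_add_of_le hj
    have : 2 + i - 1 = i + 1 := by omega
    rw [this, pow_add, pow_add]
    have : 1 ≤ 3 ^ i := Nat.one_le_pow _ _ (by norm_num)
    omega
  have h6 : (X - 1 : (ZMod 3)[X]) ^ 3 ∣ PA (ZMod 3) := by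
    rw [h4] at h3
    exact (pow_dvd_pow _ h5).trans h3
  have h7 := pow_sub_one_dvd_derivative_of_pow_dvd h6
  have h8 := pow_sub_one_dvd_derivative_of_pow_dvd h7
  have h9 : (X - 1 : (ZMod 3)[X]) ∣ derivative (derivative (PA (ZMod 3))) := by
    simpa using h8
  obtain ⟨Q, hQ⟩ := h9
  have h10 := PA_deriv2
  rw [hQ, eval_mul] at h10
  simp at h10
  exact absurd h10 (by decide)

/-- `A(ζ) ≠ 0` for all `3`-power roots of unity different from one -/
theorem eval_ne {ζ : ℂ} {K : ℕ} (hK : ζ ^ (3 ^ K) = 1) (h1 : ζ ≠ 1) : ∑ a ∈ A, ζ ^ a ≠ 0 := by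
  have ho : orderOf ζ ∣ 3 ^ K := orderOf_dvd_of_pow_eq_one hK
  obtain ⟨j, hj, hj'⟩ := (Nat.dvd_prime_pow Nat.prime_three).1 ho
  have hp : IsPrimitiveRoot ζ (3 ^ j) := by
    rw [← hj']; exact IsPrimitiveRoot.orderOf ζ
  rcases Nat.lt_or_ge j 2 with h | h
  · interval_cases j
    · exfalso
      apply h1
      simpa using hp.pow_eq_one
    · exact eval_ne_zero_three (by simpa using hp.pow_eq_one) h1
  · exact eval_ne_zero h hp


/-! ### no tiling of the integers -/

/-- shifting a periodic sum -/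
theorem sum_shift {h : ℤ → ℂ} {M : ℕ} (hp : ∀ n, h (n + M) = h n) (a : ℕ) :
    ∑ i ∈ Finset.range M, h ((i : ℤ) - a) = ∑ i ∈ Finset.range M, h (i : ℤ) := by
  induction a with
  | zero => simp
  | succ a ih =>
    rw [← ih]
    have e1 := Finset.sum_range_succ (fun j : ℕ => h ((j : ℤ) - ((a + 1 : ℕ) : ℤ))) M
    have e2 := Finset.sum_range_succ' (fun j : ℕ => h ((j : ℤ) - ((a + 1 : ℕ) : ℤ))) M
    rw [e1] at e2
    have e3 : h ((M : ℤ) - ((a + 1 : ℕ) : ℤ)) = h (((0 : ℕ) : ℤ) - ((a + 1 : ℕ) : ℤ)) := by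
      rw [← hp (((0 : ℕ) : ℤ) - ((a + 1 : ℕ) : ℤ))]
      congr 1
    have e4 : ∀ i : ℕ, h (((i + 1 : ℕ) : ℤ) - ((a + 1 : ℕ) : ℤ)) = h ((i : ℤ) - a) := by
      intro i
      congr 1
      push_cast
      ring
    simp only [e4, e3] at e2
    exact add_right_cancel e2

/-- no periodic tiling -/
theorem no_periodic {f : ℤ → ℕ} {M : ℕ} (hM : 0 < M) (hp : ∀ n, f (n + M) = f n)
    (hf : ∀ k : ℤ, ∑ a ∈ A, f (k - a) = 1) : False := by
  -- the basic identity
  have key : ∀ ζ : ℂ, ζ ^ M = 1 →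
      (∑ a ∈ A, ζ ^ a) * (∑ i ∈ Finset.range M, (f (i : ℤ) : ℂ) * ζ ^ i)
        = ∑ i ∈ Finset.range M, ζ ^ i := by
    intro ζ hζ
    have hζ0 : ζ ≠ 0 := by
      rintro rfl
      rw [zero_pow hM.ne'] at hζ
      exact zero_ne_one hζ
    have hper : ∀ n : ℤ, (fun n : ℤ => (f n : ℂ) * ζ ^ n) (n + M) = (fun n : ℤ => (f n : ℂ) * ζ ^ n) n := by
      intro n
      simp only
      rw [hp, zpow_add₀ hζ0, zpow_natCast, hζ, mul_one]
    rw [Finset.sum_mul]
    have h1 : ∀ a ∈ A, ζ ^ a * (∑ i ∈ Finset.range M, (f (i : ℤ) : ℂ) * ζ ^ i)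
        = ∑ i ∈ Finset.range M, (f ((i : ℤ) - a) : ℂ) * ζ ^ i := by
      intro a _
      have := sum_shift (h := fun n : ℤ => (f n : ℂ) * ζ ^ n) hper a
      simp only [zpow_natCast] at this
      rw [← this, Finset.mul_sum]
      apply Finset.sum_congr rfl
      intro i _
      rw [zpow_sub₀ hζ0, zpow_natCast, zpow_natCast]
      field_simp
    rw [Finset.sum_congr rfl h1, Finset.sum_comm]
    apply Finset.sum_congr rfl
    intro i _
    rw [← Finset.sum_mul]
    have := hf i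
    have h2 : (∑ a ∈ A, (f ((i : ℤ) - a) : ℂ)) = 1 := by exact_mod_cast this
    rw [h2, one_mul]
  set b : ℕ := ∑ i ∈ Finset.range M, f (i : ℤ) with hb
  -- at one
  have hM60 : M = 60 * b := by
    have := key 1 (one_pow _)
    simp only [one_pow, mul_one, Finset.sum_const, Finset.card_range, A_card] at this
    rw [hb]
    have h2 : ((60 * ∑ i ∈ Finset.range M, f (i : ℤ) : ℕ) : ℂ) = (M : ℂ) := by
      push_cast
      simpa using this
    exact_mod_cast h2.symm
  obtain ⟨K, M', hM', hMK⟩ := Nat.exists_eq_pow_mul_and_not_dvd hM.ne' 3 (by norm_num)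
  have hKpos : 0 < 3 ^ K := by positivity
  -- vanishing at roots of unity
  have hzero : ∀ ζ : ℂ, ζ ^ (3 ^ K) = 1 → ζ ≠ 1 →
      ∑ i ∈ Finset.range M, (f (i : ℤ) : ℂ) * ζ ^ i = 0 := by
    intro ζ h1 h2
    have hζM : ζ ^ M = 1 := by rw [hMK, pow_mul, h1, one_pow]
    have h3 := key ζ hζM
    have h4 : ∑ i ∈ Finset.range M, ζ ^ i = 0 := by
      have := mul_neg_geom_sum ζ M
      rw [hζM, sub_self] at this
      rcases mul_eq_zero.1 this with h | h
      · exact absurd (sub_eq_zero.1 h).symm h2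
      · exact h
    rw [h4] at h3
    rcases mul_eq_zero.1 h3 with h | h
    · exact absurd h (eval_ne h1 h2)
    · exact h
  -- orthogonality
  set ω : ℂ := Complex.exp (2 * Real.pi * Complex.I / ((3 ^ K : ℕ) : ℂ)) with hω
  have hprim : IsPrimitiveRoot ω (3 ^ K) := Complex.isPrimitiveRoot_exp _ hKpos.ne'
  have hs1 : ∑ s ∈ Finset.range (3 ^ K), ∑ i ∈ Finset.range M, (f (i : ℤ) : ℂ) * (ω ^ s) ^ i
      = (b : ℂ) := by
    rw [Finset.sum_eq_single 0]
    · simp only [pow_zero, one_pow, mul_one]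
      rw [hb]
      push_cast
      rfl
    · intro s hs hs0
      apply hzero
      · rw [← pow_mul, mul_comm, pow_mul, hprim.pow_eq_one, one_pow]
      · intro h
        have := (hprim.pow_eq_one_iff_dvd s).1 h
        have := Nat.le_of_dvd (Nat.pos_of_ne_zero hs0) this
        exact absurd (Finset.mem_range.1 hs) (by omega)
    · intro h
      exact absurd (Finset.mem_range.2 hKpos) h
  have hs2 : ∑ s ∈ Finset.range (3 ^ K), ∑ i ∈ Finset.range M, (f (i : ℤ) : ℂ) * (ω ^ s) ^ i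
      = ((3 ^ K * ∑ i ∈ Finset.range M, (if 3 ^ K ∣ i then f (i : ℤ) else 0) : ℕ) : ℂ) := by
    rw [Finset.sum_comm]
    push_cast
    rw [Finset.mul_sum]
    apply Finset.sum_congr rfl
    intro i _
    have e : ∀ s : ℕ, (ω ^ s) ^ i = (ω ^ i) ^ s := fun s => by rw [← pow_mul, ← pow_mul, mul_comm]
    simp only [e]
    rw [← Finset.mul_sum]
    split_ifs with hi
    · have h1 : ω ^ i = 1 := (hprim.pow_eq_one_iff_dvd i).2 hi
      simp only [h1, one_pow, Finset.sum_const, Finset.card_range, nsmul_eq_mul, mul_one]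
      push_cast
      ring
    · have h1 : ω ^ i ≠ 1 := fun h => hi ((hprim.pow_eq_one_iff_dvd i).1 h)
      have h2 : (ω ^ i) ^ (3 ^ K) = 1 := by
        rw [← pow_mul, mul_comm, pow_mul, hprim.pow_eq_one, one_pow]
      have h4 : ∑ s ∈ Finset.range (3 ^ K), (ω ^ i) ^ s = 0 := by
        have := mul_neg_geom_sum (ω ^ i) (3 ^ K)
        rw [h2, sub_self] at this
        rcases mul_eq_zero.1 this with h | h
        · exact absurd (sub_eq_zero.1 h).symm h1
        · exact h
      rw [h4]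
      simp
  rw [hs1] at hs2
  have hbb : b = 3 ^ K * ∑ i ∈ Finset.range M, (if 3 ^ K ∣ i then f (i : ℤ) else 0) := by
    exact_mod_cast hs2
  -- contradiction
  apply hM'
  set c := ∑ i ∈ Finset.range M, (if 3 ^ K ∣ i then f (i : ℤ) else 0)
  have h5 : 3 ^ K * M' = 3 ^ K * (60 * c) := by
    rw [← hMK, hM60, hbb]
    ring
  have h6 : M' = 60 * c := Nat.eq_of_mul_eq_mul_left hKpos h5
  rw [h6]
  exact ⟨20 * c, by ring⟩

/-- no tiling of the integers -/
theorem no_tiling (g : ℤ → ℕ) (hg : ∀ k : ℤ, ∑ a ∈ A, g (k - a) = 1) : False := by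
  have hle : ∀ m, g m ≤ 1 := by
    intro m
    have h1 : g (m - ((0 : ℕ) : ℤ)) ≤ ∑ a ∈ A, g (m - a) :=
      Finset.single_le_sum (f := fun a : ℕ => g (m - a)) (fun _ _ => Nat.zero_le _) A_zero
    rw [hg] at h1
    simpa using h1
  -- pigeonhole
  obtain ⟨n1, n2, hn, hs⟩ : ∃ n1 n2 : ℕ, n1 < n2 ∧
      ∀ i : Fin 5891, g ((n1 : ℤ) + (i : ℕ)) = g ((n2 : ℤ) + (i : ℕ)) := by
    let s : ℕ → (Fin 5891 → Fin 2) := fun n i => ⟨g ((n : ℤ) + (i : ℕ)), Nat.lt_succ_of_le (hle _)⟩
    obtain ⟨x, y, hxy, he⟩ := Finite.exists_ne_map_eq_of_infinite s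
    have he' : ∀ i : Fin 5891, g ((x : ℤ) + (i : ℕ)) = g ((y : ℤ) + (i : ℕ)) := by
      intro i
      have := congrFun he i
      simpa [s] using this
    rcases lt_or_gt_of_ne hxy with h | h
    · exact ⟨x, y, h, he'⟩
    · exact ⟨y, x, h, fun i => (he' i).symm⟩
  have hall : ∀ i : ℕ, g ((n1 : ℤ) + i) = g ((n2 : ℤ) + i) := by
    intro i
    induction i using Nat.strong_induction_on with
    | _ i ih =>
      rcases Nat.lt_or_ge i 5891 with h | h
      · exact hs ⟨i, h⟩
      · have r1 := hg ((n1 : ℤ) + i)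
        have r2 := hg ((n2 : ℤ) + i)
        rw [← Finset.add_sum_erase A _ A_zero] at r1 r2
        have r3 : ∑ a ∈ A.erase 0, g ((n1 : ℤ) + i - a) = ∑ a ∈ A.erase 0, g ((n2 : ℤ) + i - a) := by
          apply Finset.sum_congr rfl
          intro a ha
          have ha0 : a ≠ 0 := (Finset.mem_erase.1 ha).1
          have ha1 := A_le a (Finset.mem_erase.1 ha).2
          have := ih (i - a) (by omega)
          have e : ((i - a : ℕ) : ℤ) = (i : ℤ) - a := by push_cast [Nat.cast_sub (by omega : a ≤ i)]; ring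
          rw [e] at this
          rw [show (n1 : ℤ) + i - a = n1 + (i - a) by ring, show (n2 : ℤ) + i - a = n2 + (i - a) by ring]
          exact this
        have e0 : ((0 : ℕ) : ℤ) = 0 := rfl
        rw [r3] at r1
        rw [e0, sub_zero] at r1 r2
        omega
  set M : ℕ := n2 - n1 with hM
  have hMpos : 0 < M := by omega
  have hMZ : (M : ℤ) = n2 - n1 := by rw [hM]; push_cast [Nat.cast_sub hn.le]; ring
  have hperN : ∀ i : ℕ, g ((n1 : ℤ) + ((i + M : ℕ) : ℤ)) = g ((n1 : ℤ) + i) := by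
    intro i
    rw [hall i]
    congr 1
    push_cast
    rw [hMZ]
    ring
  have hperN' : ∀ (t i : ℕ), g ((n1 : ℤ) + ((i + M * t : ℕ) : ℤ)) = g ((n1 : ℤ) + i) := by
    intro t
    induction t with
    | zero => intro i; simp
    | succ t ih =>
      intro i
      rw [← ih i, ← hperN (i + M * t)]
      congr 3
      ring
  let f : ℤ → ℕ := fun m => g ((n1 : ℤ) + m % (M : ℤ))
  have hMZpos : (0 : ℤ) < M := by exact_mod_cast hMpos
  have hfp : ∀ n, f (n + M) = f n := by
    intro n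
    simp only [f, Int.add_emod_right]
  have hfp' : ∀ n t : ℤ, f (n + M * t) = f n := by
    intro n t
    simp only [f, Int.add_mul_emod_self_left]
  have hfnat : ∀ n : ℤ, 0 ≤ n → f n = g ((n1 : ℤ) + n) := by
    intro n hn0
    simp only [f]
    obtain ⟨m, rfl⟩ := Int.eq_ofNat_of_zero_le hn0
    have h1 := hperN' (m / M) (m % M)
    rw [Nat.mod_add_div] at h1
    rw [h1]
    congr 1
  have hf : ∀ k : ℤ, ∑ a ∈ A, f (k - a) = 1 := by
    intro k
    -- choose t with k + M t ≥ 5891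
    obtain ⟨t, ht⟩ : ∃ t : ℤ, 5891 ≤ k + M * t := by
      refine ⟨5891 + |k|, ?_⟩
      have h1 : -|k| ≤ k := neg_abs_le k
      have h2 : (0 : ℤ) ≤ |k| := abs_nonneg k
      nlinarith
    have h3 := hg ((n1 : ℤ) + (k + M * t))
    rw [← h3]
    apply Finset.sum_congr rfl
    intro a ha
    have ha1 := A_le a ha
    have ha2 : (a : ℤ) ≤ 5891 := by exact_mod_cast ha1
    have h4 : (0 : ℤ) ≤ k - a + M * t := by linarith
    have h5 : f (k - a) = g ((n1 : ℤ) + (k - a + M * t)) := (hfp' (k - a) t).symm.trans (hfnat _ h4)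
    have h6 : (n1 : ℤ) + (k - a + M * t) = (n1 : ℤ) + (k + M * t) - a := by ring
    rw [h5, h6]
  exact no_periodic hMpos hfp hf

/-! ### weights -/

/-- truncated valuation -/
def vv (p z : ℕ) : ℕ := if z % (p * p) = 0 then 2 else if z % p = 0 then 1 else 0

/-- weights on `[0, 1800)` (times 240) -/
def Wn (m : ℕ) : ℕ :=
  if m % 2 = 1 then 0 else
    let z := m / 2
    let a := vv 2 z
    let b := vv 3 z
    let c := vv 5 z
    if c = 0 then (if b = 0 then 10 else if a = 0 then 8 else 0)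
    else if b = 0 then 0
    else if a = 0 then (if b = 1 then 12 else 0)
    else if c = 1 then (if b = 1 then 45 else if a = 1 then 60 else 0)
    else if b = 2 then (if a = 2 then 240 else 0) else 0

/-- the check for one residue -/
def chk (k : ℕ) : Bool := (L.map (fun a => Wn ((k + 7200 - a) % 1800))).sum == 240

theorem chk_all : (List.range 1800).all chk = true := by decide +kernel

/-- the weights on the integers -/
def W (m : ℤ) : ℕ := Wn (m % 1800).toNat

theorem W_zero : W 0 = 240 := by decide +kernel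

theorem W_sum (k : ℤ) : ∑ a ∈ A, W (k - a) = 240 := by
  obtain ⟨r, hr⟩ : ∃ r : ℕ, (r : ℤ) = k % 1800 := ⟨(k % 1800).toNat, by omega⟩
  have hr' : r < 1800 := by omega
  have h1 := List.all_eq_true.1 chk_all r (List.mem_range.2 hr')
  have h2 : (L.map (fun a => Wn ((r + 7200 - a) % 1800))).sum = 240 := by
    simpa [chk] using h1
  have h3 : ∑ a ∈ A, W (k - a) = ∑ a ∈ A, Wn ((r + 7200 - a) % 1800) := by
    refine Finset.sum_congr rfl (fun a ha => ?_)
    have ha1 := A_le a ha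
    have h4 : ((k - (a : ℤ)) % 1800).toNat = (r + 7200 - a) % 1800 := by omega
    unfold W
    rw [h4]
  rw [h3, sum_A]
  exact h2

theorem W_sum' (k : ℤ) : ∑ a ∈ A, (if k - (a : ℤ) = 0 then 0 else W (k - a))
    = if (∃ a ∈ A, (a : ℤ) = k) then 0 else 240 := by
  have h := W_sum k
  split_ifs with hk
  · obtain ⟨a0, ha0, rfl⟩ := hk
    rw [← Finset.add_sum_erase A _ ha0] at h ⊢
    rw [sub_self, W_zero] at h
    have h3 : ∑ x ∈ A.erase a0, W ((a0 : ℤ) - x) = 0 := by omega
    simp only [sub_self, if_true, zero_add]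
    apply Finset.sum_eq_zero
    intro a ha
    have := (Finset.sum_eq_zero_iff.1 h3) a ha
    rw [this]
    simp
  · rw [← h]
    apply Finset.sum_congr rfl
    intro a ha
    rw [if_neg]
    intro h0
    exact hk ⟨a, ha, by omega⟩

end Pool.Agent.WT563
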